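import Pool.Agent.K4H73.Greedy.Fail

/-!
# MP_6a7af9_co: the greedy procedure does not always produce a maximum-perimeter equipartition

The negated form of Q1: there are a convex body `C` in the plane and an integer `n ≥ 2` for which
the maximum total perimeter of convex equipartitions of `C` into `n` pieces is attained only by
non-crossing equipartitions, together with a greedy partition of `C` into `n` pieces whose total
perimeter is strictly smaller than this maximum.
-/

set_option autoImplicit false

namespace Pool.Agent.Results.MP_6a7af9_co.GreedyFails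

open Pool.Agent.K4H73.Greedy

theorem result : ∃ (C : Set E2) (n : ℕ), IsConvexBody C ∧ 2 ≤ n ∧
    (∃ Q : Fin n → Set E2, IsMaximal C Q) ∧
    (∀ Q : Fin n → Set E2, IsMaximal C Q → NonCrossing C Q) ∧
    ∃ P : Fin n → Set E2, IsGreedy C P ∧ IsEquipartition C P ∧
      ∀ Q : Fin n → Set E2, IsMaximal C Q → totalPerimeter P < totalPerimeter Q := by
  obtain ⟨P, h1, h2, h3⟩ := greedy_fails
  refine ⟨hex, 3, body_hex, by norm_num, ⟨best, best_maximal⟩, fun Q hQ => maximal_nonCrossing hQ,
    P, h1, h2, fun Q hQ => lt_of_lt_of_le h3 (hQ.2 _ best_equipartition)⟩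

end Pool.Agent.Results.MP_6a7af9_co.GreedyFails
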